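import Pool.Agent.R963.Bass.Final

open Finset BigOperators

namespace Pool.Agent.Results.MP_28263e_pr.UndirectedNetworks

open Pool.Agent.R963.Bass

/-- `w k j = q_{k,j}` is a network in `G(p,q,M)`: nonnegative internal weights, zero diagonal,
all in-weights equal to `q` (the external rates are all equal to `p`). -/
def Homogeneous {M : ℕ} (q : ℝ) (w : Fin M → Fin M → ℝ) : Prop :=
  (∀ i j, 0 ≤ w i j) ∧ (∀ j, w j j = 0) ∧ (∀ j, ∑ k, w k j = q)

/-- Undirected networks of any size, and arbitrary (directed) networks with three nodes: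
the complete network is the fastest. -/
theorem result :
    (∀ (M : ℕ), 2 ≤ M → ∀ p q : ℝ, 0 < p → 0 < q →
      (Homogeneous q (complete (M := M) q) ∧
        ∀ i j, complete (M := M) q i j = complete (M := M) q j i) ∧
      ∀ w : Fin M → Fin M → ℝ, Homogeneous q w → (∀ i j, w i j = w j i) → ∀ t : ℝ, 0 ≤ t →
        adoption p w t ≤ adoption p (complete (M := M) q) t ∧
        ∀ n : ℕ, ∑ A, law p (complete (M := M) q) t A * ((Aᶜ.card).choose n : ℝ) ≤
          ∑ A, law p w t A * ((Aᶜ.card).choose n : ℝ)) ∧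
    (∀ p q : ℝ, 0 < p → 0 < q → ∀ w : Fin 3 → Fin 3 → ℝ, Homogeneous q w → ∀ t : ℝ, 0 ≤ t →
        adoption p w t ≤ adoption p (complete (M := 3) q) t) := by
  refine ⟨fun M hM p q hp hq => ⟨⟨⟨complete_nonneg hM hq.le, complete_diag q, complete_sum hM⟩,
    fun i j => ?_⟩, fun w hw hsym t ht => ?_⟩, fun p q hp hq w hw t ht => ?_⟩
  · simp [complete, eq_comm]
  · obtain ⟨h1, h2, h3⟩ := hw
    have hG : ∀ k t, 0 ≤ t → 0 ≤ Ex p w (phi (2 * q / ((M : ℝ) - 1)) w k) t :=
      fun k t ht => G_nonneg hM hp.le hq.le rfl h1 h3 h2 hsym M k (by omega) t ht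
    have key := fun k => stage_two hM hp.le hq.le rfl h1 h3 h2 hG M k (by omega) t ht
    have hM0 : (0 : ℝ) < M := by
      have : 0 < M := by omega
      exact_mod_cast this
    constructor
    · rw [adoption_eq hM, adoption_eq hM]
      have := mul_le_mul_of_nonneg_left (key 0) (by positivity : (0:ℝ) ≤ 1 / (M : ℝ))
      linarith
    · intro n
      cases n with
      | zero => simp [sum_law]
      | succ n => exact key n
  · obtain ⟨h1, h2, h3⟩ := hw
    have hG := G_three (p := p) hp.le hq.le rfl h1 h3 h2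
    have key := stage_two (M := 3) (by norm_num) hp.le hq.le rfl h1 h3 h2 hG 3 0 (by omega) t ht
    rw [adoption_eq (by norm_num), adoption_eq (by norm_num)]
    have := mul_le_mul_of_nonneg_left key (by positivity : (0:ℝ) ≤ 1 / ((3 : ℕ) : ℝ))
    linarith

end Pool.Agent.Results.MP_28263e_pr.UndirectedNetworks
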